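import Pool.Agent.helper4.NF.SpecA
import Pool.Agent.helper31.ZD.QZ0

/-!
# nf:QZC: the second moment of a weighted exponential sum on `[-c, c]`
-/

set_option autoImplicit false

open Complex MeasureTheory

namespace Pool.Agent.NF

open Pool.Agent.helper84.DM Pool.Agent.helper78.ED Pool.Agent.DH Pool.Agent.ZD

theorem QZC_sq (W : Finset ℝ) (f : ℝ → ℂ) (x : ℝ) :
    ((‖xf W f x‖ ^ 2 * Real.exp (-x ^ 2) : ℝ) : ℂ) =
    ∑ t ∈ W, ∑ t' ∈ W, f t * (starRingEnd ℂ) (f t') *
      cexp (-1 * (x : ℂ) ^ 2 + (((t - t' : ℝ) : ℂ) * I) * x + 0) := by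
  have h1 : ((‖xf W f x‖ ^ 2 : ℝ) : ℂ) = xf W f x * (starRingEnd ℂ) (xf W f x) := by
    rw [Complex.mul_conj']
    push_cast
    rfl
  rw [Complex.ofReal_mul, h1, xf, map_sum, Finset.sum_mul_sum, Finset.sum_mul]
  refine Finset.sum_congr rfl fun t _ => ?_
  rw [Finset.sum_mul]
  refine Finset.sum_congr rfl fun t' _ => ?_
  rw [map_mul]
  have h2 : ex (t * x) * (starRingEnd ℂ) (ex (t' * x)) * ((Real.exp (-x ^ 2) : ℝ) : ℂ) =
      cexp (-1 * (x : ℂ) ^ 2 + (((t - t' : ℝ) : ℂ) * I) * x + 0) := by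
    unfold ex
    rw [← Complex.exp_conj, Complex.ofReal_exp, ← Complex.exp_add, ← Complex.exp_add]
    congr 1
    simp only [map_mul, Complex.conj_ofReal, Complex.conj_I]
    push_cast
    ring
  rw [← h2]
  ring

theorem QZC : QZC_stmt := by
  intro c hc
  set K : ℝ := ‖((Real.pi : ℂ) / -(-1)) ^ (1 / 2 : ℂ)‖ with hK
  set G : ℝ := ∑' k : ℤ, QZ0_g k with hG
  have hK0 : 0 ≤ K := norm_nonneg _
  have hG0 : 0 ≤ G := tsum_nonneg fun k => by unfold QZ0_g; positivity
  refine ⟨Real.exp (c ^ 2) * (K * G) + 1, by positivity, fun W f hW => ?_⟩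
  set S : ℝ := ∑ t ∈ W, ‖f t‖ ^ 2 with hS
  have hS0 : 0 ≤ S := Finset.sum_nonneg fun t _ => by positivity
  have hint : ∀ t t' : ℝ, Integrable (fun x : ℝ => f t * (starRingEnd ℂ) (f t') *
      cexp (-1 * (x : ℂ) ^ 2 + (((t - t' : ℝ) : ℂ) * I) * x + 0)) := by
    intro t t'
    exact (integrable_cexp_quadratic' (by simp) _ _).const_mul _
  have hintC : Integrable (fun x : ℝ => ((‖xf W f x‖ ^ 2 * Real.exp (-x ^ 2) : ℝ) : ℂ)) := by
    simp_rw [QZC_sq]
    exact integrable_finsetSum _ fun t _ => integrable_finsetSum _ fun t' _ => hint t t'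
  have hintR : Integrable (fun x : ℝ => ‖xf W f x‖ ^ 2 * Real.exp (-x ^ 2)) := by
    exact hintC.re.congr (Filter.Eventually.of_forall fun x => rfl)
  have hval : ((∫ x : ℝ, ‖xf W f x‖ ^ 2 * Real.exp (-x ^ 2) : ℝ) : ℂ) =
      ∑ t ∈ W, ∑ t' ∈ W, f t * (starRingEnd ℂ) (f t') * (((Real.pi : ℂ) / -(-1)) ^ (1 / 2 : ℂ) *
        cexp (0 - ((((t - t' : ℝ) : ℂ) * I)) ^ 2 / (4 * (-1)))) := by
    rw [← integral_complex_ofReal]
    simp_rw [QZC_sq]
    rw [integral_finsetSum _ fun t _ => integrable_finsetSum _ fun t' _ => hint t t']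
    refine Finset.sum_congr rfl fun t _ => ?_
    rw [integral_finsetSum _ fun t' _ => hint t t']
    refine Finset.sum_congr rfl fun t' _ => ?_
    rw [integral_const_mul]
    congr 1
    exact integral_cexp_quadratic (by simp) _ _
  have hnn : 0 ≤ ∫ x : ℝ, ‖xf W f x‖ ^ 2 * Real.exp (-x ^ 2) :=
    integral_nonneg fun x => by positivity
  have hbd : ∫ x : ℝ, ‖xf W f x‖ ^ 2 * Real.exp (-x ^ 2) ≤ K * G * S := by
    calc ∫ x : ℝ, ‖xf W f x‖ ^ 2 * Real.exp (-x ^ 2)
        = ‖((∫ x : ℝ, ‖xf W f x‖ ^ 2 * Real.exp (-x ^ 2) : ℝ) : ℂ)‖ := by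
          rw [Complex.norm_real, Real.norm_of_nonneg hnn]
      _ ≤ ∑ t ∈ W, ∑ t' ∈ W, ‖f t‖ * ‖f t'‖ * (K * Real.exp (-((t - t') ^ 2 / 4))) := by
          rw [hval]
          refine (norm_sum_le _ _).trans (Finset.sum_le_sum fun t _ => ?_)
          refine (norm_sum_le _ _).trans (Finset.sum_le_sum fun t' _ => ?_)
          rw [norm_mul, norm_mul, norm_mul, Complex.norm_exp, Complex.norm_conj]
          refine le_of_eq ?_
          congr 3
          have : (0 : ℂ) - ((((t - t' : ℝ) : ℂ) * I)) ^ 2 / (4 * (-1)) =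
              ((-((t - t') ^ 2 / 4) : ℝ) : ℂ) := by
            rw [mul_pow, I_sq]
            push_cast
            ring
          rw [this, Complex.ofReal_re]
      _ ≤ ∑ t ∈ W, ∑ t' ∈ W, (‖f t‖ ^ 2 / 2 * (K * Real.exp (-((t - t') ^ 2 / 4))) +
            ‖f t'‖ ^ 2 / 2 * (K * Real.exp (-((t - t') ^ 2 / 4)))) := by
          refine Finset.sum_le_sum fun t _ => Finset.sum_le_sum fun t' _ => ?_
          rw [← add_mul]
          refine mul_le_mul_of_nonneg_right ?_ (by positivity)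
          nlinarith [sq_nonneg (‖f t‖ - ‖f t'‖)]
      _ = ∑ t ∈ W, ∑ t' ∈ W, ‖f t‖ ^ 2 * (K * Real.exp (-((t - t') ^ 2 / 4))) := by
          simp_rw [Finset.sum_add_distrib]
          rw [Finset.sum_comm (f := fun t t' => ‖f t'‖ ^ 2 / 2 *
            (K * Real.exp (-((t - t') ^ 2 / 4)))), ← Finset.sum_add_distrib]
          refine Finset.sum_congr rfl fun t _ => ?_
          rw [← Finset.sum_add_distrib]
          refine Finset.sum_congr rfl fun t' _ => ?_
          have : (t' - t) ^ 2 = (t - t') ^ 2 := by ring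
          rw [this]
          ring
      _ ≤ ∑ t ∈ W, ‖f t‖ ^ 2 * (K * G) := by
          refine Finset.sum_le_sum fun t _ => ?_
          rw [← Finset.mul_sum, ← Finset.mul_sum]
          exact mul_le_mul_of_nonneg_left (mul_le_mul_of_nonneg_left (QZ0_row W hW t) hK0)
            (by positivity)
      _ = K * G * S := by
          rw [← Finset.sum_mul, hS]
          ring
  have hcont : Continuous (xf W f) := by
    unfold xf ex
    fun_prop
  calc ∫ x in (-c)..c, ‖xf W f x‖ ^ 2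
      ≤ ∫ x in (-c)..c, Real.exp (c ^ 2) * (‖xf W f x‖ ^ 2 * Real.exp (-x ^ 2)) := by
        refine intervalIntegral.integral_mono_on (by linarith) ?_ ?_ ?_
        · exact (Continuous.intervalIntegrable (by fun_prop) _ _)
        · exact (Continuous.intervalIntegrable (by fun_prop) _ _)
        · intro x hx
          have h1 : Real.exp (c ^ 2) * (‖xf W f x‖ ^ 2 * Real.exp (-x ^ 2)) =
              ‖xf W f x‖ ^ 2 * Real.exp (c ^ 2 - x ^ 2) := by
            rw [sub_eq_add_neg, Real.exp_add]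
            ring
          rw [h1]
          have h2 : 1 ≤ Real.exp (c ^ 2 - x ^ 2) := by
            refine Real.one_le_exp ?_
            nlinarith [hx.1, hx.2]
          nlinarith [sq_nonneg ‖xf W f x‖]
    _ = Real.exp (c ^ 2) * ∫ x in (-c)..c, ‖xf W f x‖ ^ 2 * Real.exp (-x ^ 2) :=
        intervalIntegral.integral_const_mul _ _
    _ ≤ Real.exp (c ^ 2) * ∫ x : ℝ, ‖xf W f x‖ ^ 2 * Real.exp (-x ^ 2) := by
        refine mul_le_mul_of_nonneg_left ?_ (Real.exp_pos _).le
        rw [intervalIntegral.integral_of_le (by linarith)]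
        exact setIntegral_le_integral hintR (Filter.Eventually.of_forall fun x => by positivity)
    _ ≤ Real.exp (c ^ 2) * (K * G * S) :=
        mul_le_mul_of_nonneg_left hbd (Real.exp_pos _).le
    _ ≤ (Real.exp (c ^ 2) * (K * G) + 1) * S := by nlinarith

end Pool.Agent.NF
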